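import Pool.Agent.TH464.PO.ResLaw

set_option autoImplicit false

/-!
# Almost primes in the residue classes modulo `q`: the joint law in several windows

Fix a modulus `q ≤ X ^ D`, and let the class `a` vary. Let `t` be good for `a` if `q t + a` has at
most `(D + 1) r` prime factors, all larger than `X ^ (1 / r)`. Let `V` and `W` be the products of
`1 - 1 / p` over the primes `p ≤ X ^ (1 / r)` which do not, and do, divide `q`; so `Y W` is the
number of the `a` prime to `q` in an interval of length `Y`, and the mean distance of two good `t`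
is `1 / V`, which is of the order `(φ(q) / q) log X`. Given `θ > 0` and an accuracy `ε`, for all
`r ≥ r0` and all large `X`, for EVERY `q ≤ X ^ D` and in ALL intervals `(Z, Z + Y]` of classes
inside `[0, X ^ (D + 1)]` of length `Y ≥ X ^ θ` (for instance `Z = 0`, `Y = q`: all reduced
classes): the numbers of good `t` in several windows `(u_i, v_i]` of bounded mean are
asymptotically independent Poisson variables, when `a` runs through the integers of `(Z, Z + Y]`
prime to `q`. Here the windows correspond to the integers `≡ a` modulo `q` up to a constant times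
`φ(q) log X`, the scale on which the first primes of the classes are expected.
-/

namespace Pool.Agent.Results.MP_9cfc0a_nt.JointLawOverResidues

open Finset Filter

/-- `N` has at most `B` prime factors (with multiplicity), all of them larger than `z`. -/
def AlmostPrime (B : ℕ) (z : ℝ) (N : ℕ) : Prop :=
  N.primeFactorsList.length ≤ B ∧ ∀ p : ℕ, p.Prime → p ∣ N → z < (p : ℝ)

/-- `t` is good for the class `a`: `q t + a` has at most `(D + 1) r` prime factors, all larger than
`X ^ (1 / r)`. -/
def Good (D r X q a t : ℕ) : Prop :=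
  AlmostPrime ((D + 1) * r) ((X : ℝ) ^ (1 / (r : ℝ))) (q * t + a)

/-- The sieve density of a class: the product of `1 - 1 / p` over the primes `p ≤ X ^ (1 / r)`
not dividing `q`. -/
noncomputable def V (r X q : ℕ) : ℝ :=
  ∏ p ∈ (Finset.range (⌊(X : ℝ) ^ (1 / (r : ℝ))⌋₊ + 1)).filter (fun p => p.Prime ∧ ¬ p ∣ q),
    (1 - 1 / (p : ℝ))

/-- The share of the classes: the product of `1 - 1 / p` over the primes `p ≤ X ^ (1 / r)` dividing
`q`. -/
noncomputable def W (r X q : ℕ) : ℝ :=
  ∏ p ∈ (Finset.range (⌊(X : ℝ) ^ (1 / (r : ℝ))⌋₊ + 1)).filter (fun p => p.Prime ∧ p ∣ q),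
    (1 - 1 / (p : ℝ))

open Classical in
/-- The number of good `t` in the window `(u, v]`. -/
noncomputable def N (D r X q a u v : ℕ) : ℕ :=
  ((Finset.Ioc u v).filter (fun t => Good D r X q a t)).card

/-- The probability that a Poisson variable of mean `x` lies in the finite set `E`. -/
noncomputable def Poi (x : ℝ) (E : Finset ℕ) : ℝ :=
  ∑ j ∈ E, Real.exp (-x) * x ^ j / j.factorial

open Pool.Agent.TH464.PO

open Classical in
/-- **The joint law over the residue classes.** -/
theorem result (D : ℕ) (θ : ℝ) (hθ : 0 < θ) (s : ℕ) (x ε : ℝ) (hε : 0 < ε) :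
    ∃ r0 : ℕ, ∀ r : ℕ, r0 ≤ r → ∀ᶠ X : ℕ in atTop, ∀ q : ℕ, 1 ≤ q → q ≤ X ^ D →
      ∀ Z Y : ℕ, (X : ℝ) ^ θ ≤ Y → Z + Y ≤ X ^ (D + 1) →
      ∀ u v : Fin s → ℕ, (∀ i, u i ≤ v i) → (∀ i, v i * V r X q ≤ x) →
      (∀ i j, i ≠ j → v i ≤ u j ∨ v j ≤ u i) → ∀ E : Fin s → Finset ℕ,
        |(((Finset.Ioc Z (Z + Y)).filter (fun a => Nat.Coprime a q ∧
            ∀ i, N D r X q a (u i) (v i) ∈ E i)).card : ℝ) -
          Y * W r X q * ∏ i, Poi (((v i : ℝ) - u i) * V r X q) (E i)| ≤ ε * (Y * W r X q) := by
  obtain ⟨r0, h⟩ := res_joint D θ hθ s x ε hε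
  refine ⟨r0, fun r hr => ?_⟩
  filter_upwards [h r hr] with X hX q hq hqX Z Y hY hZ u v huv hv hdis E
  exact hX q hq hqX (Good D r X q) (V r X q) (W r X q) (fun _ _ => Iff.rfl) (V_Qo q _)
    (Wq_form q _) Z Y hY hZ u v huv hv hdis E

end Pool.Agent.Results.MP_9cfc0a_nt.JointLawOverResidues
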