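import Pool.Agent.TH949.DW.Gen

/-!
# Primes congruent to 1 modulo q: one-sided bounds on one sequence of windows

Montgomery's conjecture contains the generalised Riemann hypothesis for every fixed modulus.  Here only
a one-sided bound, only for the class `1 mod q` (or for the race of `1` against a class `a` with
`a ^ 2 = 1`), and only for `x` in the windows `[X ^ (1 - δ), X]` for arbitrarily large `X` is assumed;
this already excludes all zeros with real part `> c` of the `L`-functions modulo `q` concerned.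

The approach: for a zero `ρ` with `Re ρ > c` one integrates the summatory function of the coefficients
of the logarithm of the Euler product against `u ^ k e ^ (-s u)`, with `s` far to the right and `k`
proportional to `log X`, so that the zero (or the zeros) next to a vertical line dominates and the
integral is concentrated on the window; real zeros and sign changes are handled by the real variant of
the argument (project TX, `TX.SMain.main_sum`).
-/

set_option autoImplicit false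

open Filter

namespace Pool.Agent.Results.MP_9cfc0a_nt.OneSequenceOfWindows

/-- the number of primes `p ≤ x` with `p mod q` in `A` -/
noncomputable def piIn {q : ℕ} (A : Set (ZMod q)) (x : ℝ) : ℕ :=
  Set.ncard {p : ℕ | p.Prime ∧ (p : ℝ) ≤ x ∧ (p : ZMod q) ∈ A}

/-- `OnWindows δ P`: there are arbitrarily large `X` such that `P x` holds for all `x` with
`X ^ (1 - δ) ≤ x ≤ X`. -/
def OnWindows (δ : ℝ) (P : ℝ → Prop) : Prop :=
  ∀ X₀ : ℝ, ∃ X : ℝ, X₀ ≤ X ∧ ∀ x : ℝ, X ^ (1 - δ) ≤ x → x ≤ X → P x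

/-- `L(s, χ)` has no zero with real part `> c`. -/
def ZeroFree {q : ℕ} [NeZero q] (c : ℝ) (χ : DirichletCharacter ℂ q) : Prop :=
  ∀ s : ℂ, c < s.re → DirichletCharacter.LFunction χ s ≠ 0

lemma piIn_eq {q : ℕ} (A : Set (ZMod q)) (x : ℝ) : (piIn A x : ℝ) =
    ∑ p ∈ (Finset.range (⌊x⌋₊ + 1)).filter Nat.Prime,
      (open Classical in if ((p : ℕ) : ZMod q) ∈ A then (1 : ℝ) else 0) := by
  classical
  have h1 : {p : ℕ | p.Prime ∧ (p : ℝ) ≤ x ∧ (p : ZMod q) ∈ A} =
      ↑(((Finset.range (⌊x⌋₊ + 1)).filter Nat.Prime).filter (fun p : ℕ => (p : ZMod q) ∈ A)) := by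
    ext p
    simp only [Finset.coe_filter, Finset.mem_filter, Finset.mem_range, Set.mem_ofPred_eq]
    constructor
    · rintro ⟨h1, h2, h3⟩
      exact ⟨⟨Nat.lt_succ_of_le ((Nat.le_floor_iff' h1.ne_zero).2 h2), h1⟩, h3⟩
    · rintro ⟨⟨h1, h2⟩, h3⟩
      exact ⟨h2, (Nat.le_floor_iff' h2.ne_zero).1 (Nat.lt_succ_iff.1 h1), h3⟩
  unfold piIn
  rw [h1, Set.ncard_coe_finset, Finset.card_filter]
  push_cast
  refine Finset.sum_congr rfl fun p _ => ?_
  split_ifs <;> simp

lemma onWindows_freq {δ : ℝ} {P : ℝ → Prop} (h : OnWindows δ P) :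
    ∃ᶠ X : ℝ in atTop, ∀ x : ℝ, X ^ (1 - δ) ≤ x → x ≤ X → P x := by
  rw [frequently_atTop]
  intro X₀
  obtain ⟨X, h1, h2⟩ := h X₀
  exact ⟨X, h1, h2⟩

section
open Pool.Agent.TH949.DW

variable {q : ℕ} [NeZero q]

/-- part (D) -/
lemma partD {c δ C : ℝ} (hc : 1 / 2 ≤ c) (hδ : 0 < δ) (S : Finset (DirichletCharacter ℂ q))
    (h1 : ∀ χ ∈ S, χ ≠ 1) (hS : ∀ χ ∈ S, χ⁻¹ ∈ S)
    (hW : OnWindows δ (fun x => -(C * x ^ c) ≤
        ∑ p ∈ (Finset.range (⌊x⌋₊ + 1)).filter Nat.Prime, (∑ χ ∈ S, χ ((p : ℕ) : ZMod q)).re)) :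
    ∀ χ ∈ S, ZeroFree c χ :=
  gen S (fun h => h1 1 h rfl) hS hc hδ (onWindows_freq hW)

/-- a general comparison -/
lemma cmp {c δ C : ℝ} (hc : 1 / 2 ≤ c) (hδ : 0 < δ) (S : Finset (DirichletCharacter ℂ q))
    (h1 : ∀ χ ∈ S, χ ≠ 1) (hS : ∀ χ ∈ S, χ⁻¹ ∈ S) (A B : Set (ZMod q)) {m : ℝ} (hm : 0 < m) {k : ℝ}
    (hk : 0 < k)
    (hp : ∀ a : ZMod q, (open Classical in m * (k * (if a ∈ A then (1 : ℝ) else 0) -
      (if a ∈ B then (1 : ℝ) else 0))) ≤ (∑ χ ∈ S, χ a).re)
    (hW : OnWindows δ (fun x => (piIn B x : ℝ) / k - C * x ^ c ≤ piIn A x)) :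
    ∀ χ ∈ S, ZeroFree c χ := by
  classical
  refine partD (C := m * k * C) hc hδ S h1 hS ?_
  intro X₀
  obtain ⟨X, hX, h2⟩ := hW X₀
  refine ⟨X, hX, fun x hx1 hx2 => ?_⟩
  have h3 := h2 x hx1 hx2
  have h4 : m * (k * (piIn A x : ℝ) - piIn B x) ≤
      ∑ p ∈ (Finset.range (⌊x⌋₊ + 1)).filter Nat.Prime, (∑ χ ∈ S, χ ((p : ℕ) : ZMod q)).re := by
    rw [piIn_eq, piIn_eq, Finset.mul_sum, ← Finset.sum_sub_distrib, Finset.mul_sum]
    refine Finset.sum_le_sum fun p _ => ?_
    exact hp _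
  refine le_trans ?_ h4
  have h5 : (piIn B x : ℝ) - k * (C * x ^ c) ≤ k * piIn A x := by
    have := mul_le_mul_of_nonneg_left h3 hk.le
    rw [mul_sub, mul_div_cancel₀ _ hk.ne'] at this
    exact this
  have h6 := mul_le_mul_of_nonneg_left h5 hm.le
  have e1 : m * ((piIn B x : ℝ) - k * (C * x ^ c)) = m * piIn B x - m * k * C * x ^ c := by ring
  rw [e1] at h6
  have e2 : m * (k * (piIn A x : ℝ) - piIn B x) = m * (k * piIn A x) - m * piIn B x := by ring
  rw [e2]
  linarith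

omit [NeZero q] in
lemma sum_subgroup (K : Subgroup (DirichletCharacter ℂ q)) (a : ZMod q) :
    (open Classical in ∑ χ ∈ Finset.univ.filter (fun χ : DirichletCharacter ℂ q => χ ∈ K), χ a) =
      (open Classical in if ∀ χ ∈ K, χ a = 1 then (Nat.card K : ℂ) else 0) := by
  classical
  split_ifs with h
  · rw [Finset.sum_congr rfl (fun χ hχ => h χ (Finset.mem_filter.1 hχ).2)]
    rw [Finset.sum_const, nsmul_eq_mul, mul_one]
    congr 1
    rw [Nat.card_eq_fintype_card, ← Fintype.card_subtype]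
  · push Not at h
    obtain ⟨ψ, hψ, h1⟩ := h
    refine eq_zero_of_mul_eq_self_left h1 ?_
    rw [Finset.mul_sum]
    refine Finset.sum_nbij' (fun χ => ψ * χ) (fun χ => ψ⁻¹ * χ) ?_ ?_ ?_ ?_ ?_
    · intro χ hχ
      simp only [Finset.mem_filter, Finset.mem_univ, true_and] at hχ ⊢
      exact K.mul_mem hψ hχ
    · intro χ hχ
      simp only [Finset.mem_filter, Finset.mem_univ, true_and] at hχ ⊢
      exact K.mul_mem (K.inv_mem hψ) hχ
    · intro χ _; simp
    · intro χ _; simp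
    · intro χ _
      rw [MulChar.mul_apply]

/-- part (B) -/
lemma partB {c δ C : ℝ} (hc : 1 / 2 ≤ c) (hδ : 0 < δ) (K : Subgroup (DirichletCharacter ℂ q))
    (hW : OnWindows δ (fun x => (piIn (Set.univ : Set (ZMod q)) x : ℝ) / (Nat.card K : ℝ) -
        C * x ^ c ≤ piIn {a : ZMod q | ∀ χ ∈ K, χ a = 1} x)) :
    ∀ χ ∈ K, χ ≠ 1 → ZeroFree c χ := by
  classical
  intro χ hχ hχ1
  refine cmp hc hδ (Finset.univ.filter (fun χ : DirichletCharacter ℂ q => χ ∈ K ∧ χ ≠ 1)) ?_ ?_
    {a : ZMod q | ∀ χ ∈ K, χ a = 1} Set.univ one_pos (k := (Nat.card K : ℝ)) ?_ ?_ hW χ ?_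
  · intro χ h; exact (Finset.mem_filter.1 h).2.2
  · intro χ h
    simp only [Finset.mem_filter, Finset.mem_univ, true_and] at h ⊢
    exact ⟨K.inv_mem h.1, fun h' => h.2 (inv_eq_one.1 h')⟩
  · have : 0 < Nat.card K := Nat.card_pos
    exact_mod_cast this
  · intro a
    have h1 : ∑ χ ∈ Finset.univ.filter (fun χ : DirichletCharacter ℂ q => χ ∈ K), χ a =
        (1 : DirichletCharacter ℂ q) a +
        ∑ χ ∈ Finset.univ.filter (fun χ : DirichletCharacter ℂ q => χ ∈ K ∧ χ ≠ 1), χ a := by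
      rw [← Finset.add_sum_erase _ _ (show (1 : DirichletCharacter ℂ q) ∈
        Finset.univ.filter (fun χ : DirichletCharacter ℂ q => χ ∈ K) by simp [K.one_mem])]
      congr 1
      refine Finset.sum_congr ?_ fun _ _ => rfl
      ext ψ
      simp only [Finset.mem_erase, Finset.mem_filter, Finset.mem_univ, true_and]
      tauto
    have h2 : ((1 : DirichletCharacter ℂ q) a).re ≤ 1 :=
      (Complex.re_le_norm _).trans (DirichletCharacter.norm_le_one _ _)
    have h3 := sum_subgroup K a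
    rw [h1] at h3
    have h4 : (∑ χ ∈ Finset.univ.filter (fun χ : DirichletCharacter ℂ q => χ ∈ K ∧ χ ≠ 1), χ a).re =
        (if ∀ χ ∈ K, χ a = 1 then (Nat.card K : ℝ) else 0) - ((1 : DirichletCharacter ℂ q) a).re := by
      have h5 := congrArg Complex.re h3
      rw [Complex.add_re] at h5
      split_ifs at h5 ⊢ with h6
      · rw [Complex.natCast_re] at h5; linarith
      · rw [Complex.zero_re] at h5; linarith
    rw [h4]
    simp only [Set.mem_ofPred_eq, Set.mem_univ, if_true]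
    split_ifs <;> linarith
  · simp [hχ, hχ1]

/-- part (C) -/
lemma partC {c δ C : ℝ} (hc : 1 / 2 ≤ c) (hδ : 0 < δ) (a : ZMod q) (ha : a ^ 2 = 1)
    (hW : OnWindows δ (fun x => (piIn ({a} : Set (ZMod q)) x : ℝ) - C * x ^ c ≤
        piIn ({1} : Set (ZMod q)) x)) :
    ∀ χ : DirichletCharacter ℂ q, χ a ≠ 1 → ZeroFree c χ := by
  classical
  intro χ hχ
  have hsq : ∀ ψ : DirichletCharacter ℂ q, ψ a = 1 ∨ ψ a = -1 := by
    intro ψ
    have : (ψ a) ^ 2 = 1 := by rw [← map_pow, ha, map_one]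
    exact (mul_self_eq_one_iff.1 (by rw [← sq]; exact this))
  have hφ : 0 < (q.totient : ℝ) := by
    exact_mod_cast Nat.totient_pos.2 (Nat.pos_of_ne_zero (NeZero.ne q))
  refine cmp (C := C) hc hδ (Finset.univ.filter (fun χ : DirichletCharacter ℂ q => χ a ≠ 1)) ?_ ?_
    {1} {a} (m := (q.totient : ℝ) / 2) (half_pos hφ) (k := 1) one_pos ?_ ?_ χ (by simp [hχ])
  · intro ψ h h'
    have h2 := (Finset.mem_filter.1 h).2
    rw [h'] at h2
    have hu : IsUnit a := IsUnit.of_mul_eq_one a (by rw [← sq]; exact ha)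
    exact h2 (MulChar.one_apply hu)
  · intro ψ h
    simp only [Finset.mem_filter, Finset.mem_univ, true_and] at h ⊢
    intro h'
    apply h
    rw [MulChar.inv_apply_eq_inv'] at h'
    exact inv_eq_one.1 h'
  · intro b
    have h1 : ∑ ψ ∈ Finset.univ.filter (fun χ : DirichletCharacter ℂ q => χ a ≠ 1), ψ b =
        (1 / 2 : ℂ) * (∑ ψ : DirichletCharacter ℂ q, ψ b - ∑ ψ : DirichletCharacter ℂ q, ψ (a * b)) := by
      rw [← Finset.sum_sub_distrib, Finset.mul_sum, Finset.sum_filter]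
      refine Finset.sum_congr rfl fun ψ _ => ?_
      rw [map_mul]
      rcases hsq ψ with h | h
      · rw [h]; simp
      · rw [h]
        have : (-1 : ℂ) ≠ 1 := by norm_num
        rw [if_pos this]; ring
    rw [h1, DirichletCharacter.sum_characters_eq, DirichletCharacter.sum_characters_eq]
    have h2 : a * b = 1 ↔ b = a := by
      constructor
      · intro h
        calc b = a ^ 2 * b := by rw [ha, one_mul]
          _ = a * (a * b) := by ring
          _ = a := by rw [h, mul_one]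
      · rintro rfl
        rw [← sq, ha]
    simp only [h2, Set.mem_singleton_iff]
    split_ifs <;> simp <;> linarith
  · simpa using hW

end

theorem result (q : ℕ) [NeZero q] (c δ C : ℝ) (hc : 1 / 2 ≤ c) (hδ : 0 < δ) :
    -- (A) the primes `1 mod q`
    (OnWindows δ (fun x => (piIn (Set.univ : Set (ZMod q)) x : ℝ) / (q.totient : ℝ) - C * x ^ c ≤
        piIn ({1} : Set (ZMod q)) x) →
      ∀ χ : DirichletCharacter ℂ q, χ ≠ 1 → ZeroFree c χ) ∧
    -- (B) the primes in the kernel of a group of characters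
    (∀ K : Subgroup (DirichletCharacter ℂ q),
      OnWindows δ (fun x => (piIn (Set.univ : Set (ZMod q)) x : ℝ) / (Nat.card K : ℝ) - C * x ^ c ≤
        piIn {a : ZMod q | ∀ χ ∈ K, χ a = 1} x) →
      ∀ χ ∈ K, χ ≠ 1 → ZeroFree c χ) ∧
    -- (C) the race of `1` against a class `a` with `a ^ 2 = 1`
    (∀ a : ZMod q, a ^ 2 = 1 →
      OnWindows δ (fun x => (piIn ({a} : Set (ZMod q)) x : ℝ) - C * x ^ c ≤
        piIn ({1} : Set (ZMod q)) x) →
      ∀ χ : DirichletCharacter ℂ q, χ a ≠ 1 → ZeroFree c χ) ∧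
    -- (D) any finite set of nontrivial characters, closed under complex conjugation
    (∀ S : Finset (DirichletCharacter ℂ q), (∀ χ ∈ S, χ ≠ 1) → (∀ χ ∈ S, χ⁻¹ ∈ S) →
      OnWindows δ (fun x => -(C * x ^ c) ≤
        ∑ p ∈ (Finset.range (⌊x⌋₊ + 1)).filter Nat.Prime, (∑ χ ∈ S, χ ((p : ℕ) : ZMod q)).re) →
      ∀ χ ∈ S, ZeroFree c χ) := by
  refine ⟨?_, fun K hW => partB hc hδ K hW, fun a ha hW => partC hc hδ a ha hW,
    fun S h1 hS hW => partD hc hδ S h1 hS hW⟩
  intro hW χ hχ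
  have hcard : (Nat.card (⊤ : Subgroup (DirichletCharacter ℂ q)) : ℝ) = (q.totient : ℝ) := by
    rw [Subgroup.card_top, DirichletCharacter.card_eq_totient_of_hasEnoughRootsOfUnity]
  have hset : {a : ZMod q | ∀ χ ∈ (⊤ : Subgroup (DirichletCharacter ℂ q)), χ a = 1} = {1} := by
    ext a
    simp only [Subgroup.mem_top, forall_const, Set.mem_singleton_iff]
    constructor
    · intro h
      by_contra h1
      obtain ⟨ψ, hψ⟩ := DirichletCharacter.exists_apply_ne_one_of_hasEnoughRootsOfUnity ℂ h1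
      exact hψ (h ψ)
    · rintro rfl ψ
      exact map_one ψ
  refine partB (C := C) hc hδ ⊤ ?_ χ (Subgroup.mem_top _) hχ
  rw [hcard, hset]
  exact hW

end Pool.Agent.Results.MP_9cfc0a_nt.OneSequenceOfWindows
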